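import Mathlib

set_option autoImplicit false

/-!
Project A1, block PR2 in the form of the statements: one value of `c`.
-/

namespace Pool.Agent.A1

open MeasureTheory Set

lemma integral_w {α e0 E : ℝ} (h0 : 0 < e0) (hE : e0 ≤ E) :
    ∫ e in e0..E, -α * e ^ (-1 - α) = E ^ (-α) - e0 ^ (-α) := by
  have hpos : ∀ e ∈ uIcc e0 E, 0 < e := fun e he => by
    rw [uIcc_of_le hE] at he
    exact h0.trans_le he.1
  refine intervalIntegral.integral_eq_sub_of_hasDerivAt (f := fun e : ℝ => e ^ (-α))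
    (fun e he => ?_) ?_
  · have := Real.hasDerivAt_rpow_const (x := e) (p := -α) (Or.inl (hpos e he).ne')
    rwa [show -α - 1 = -1 - α by ring] at this
  · refine ContinuousOn.intervalIntegrable fun e he => ?_
    exact ((Real.continuousAt_rpow_const e (-1 - α) (Or.inl (hpos e he).ne')).const_mul
      (-α)).continuousWithinAt

lemma intervalIntegrable_w {a e0 E : ℝ} (h0 : 0 < e0) (hE : e0 ≤ E) :
    IntervalIntegrable (fun e : ℝ => e ^ a) volume e0 E := by
  refine ContinuousOn.intervalIntegrable fun e he => ?_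
  rw [uIcc_of_le hE] at he
  exact (Real.continuousAt_rpow_const e a (Or.inl (h0.trans_le he.1).ne')).continuousWithinAt

/-- **one value of `c`** -/
theorem brace2_le {α e0 E κ C : ℝ} {P p1 p0 : ℝ → ℝ} (h0 : 0 < e0) (hE : e0 ≤ E)
    (iP : IntervalIntegrable (fun e => e ^ (-1 - α) * P e) volume e0 E)
    (i1 : IntervalIntegrable (fun e => e ^ (-1 - α) * p1 e) volume e0 E)
    (hκ : ∀ e ∈ Icc e0 E, p0 e = κ)
    (hP : P e0 ≤ κ) (hC : κ - P E ≤ C)
    (h : ∀ e ∈ Icc e0 E, (α - 1) * (κ - P e) ≤ 2 * (P e - p1 e)) :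
    -(E ^ (-α) * P E) + e0 ^ (-α) * P e0 +
      ∫ e in e0..E, e ^ (-1 - α) * (-(1 + α) * P e + 2 * p1 e - p0 e) ≤ C * E ^ (-α) := by
  have hE0 : 0 < E := h0.trans_le hE
  have iw := intervalIntegrable_w (a := -1 - α) h0 hE
  have h1 : ∫ e in e0..E, e ^ (-1 - α) * (-(1 + α) * P e + 2 * p1 e - p0 e) ≤
      ∫ e in e0..E, κ * (-α * e ^ (-1 - α)) := by
    refine intervalIntegral.integral_mono_on hE ?_ ((iw.const_mul (-α)).const_mul κ)
      fun e he => ?_
    · have : IntervalIntegrable (fun e => -(1 + α) * (e ^ (-1 - α) * P e) +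
          2 * (e ^ (-1 - α) * p1 e) - κ * e ^ (-1 - α)) volume e0 E :=
        ((iP.const_mul _).add (i1.const_mul _)).sub (iw.const_mul _)
      refine this.congr fun e he => ?_
      rw [uIoc_of_le hE] at he
      show -(1 + α) * (e ^ (-1 - α) * P e) + 2 * (e ^ (-1 - α) * p1 e) - κ * e ^ (-1 - α) =
        e ^ (-1 - α) * (-(1 + α) * P e + 2 * p1 e - p0 e)
      rw [hκ e ⟨he.1.le, he.2⟩]
      ring
    · have hw : 0 ≤ e ^ (-1 - α) := Real.rpow_nonneg (h0.le.trans he.1) _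
      rw [hκ e he]
      have h2 := h e he
      have h3 : -(1 + α) * P e + 2 * p1 e - κ ≤ -(κ * α) := by linarith
      calc e ^ (-1 - α) * (-(1 + α) * P e + 2 * p1 e - κ) ≤ e ^ (-1 - α) * -(κ * α) :=
            mul_le_mul_of_nonneg_left h3 hw
        _ = κ * (-α * e ^ (-1 - α)) := by ring
  rw [intervalIntegral.integral_const_mul, integral_w h0 hE] at h1
  have h2 : 0 ≤ e0 ^ (-α) * (κ - P e0) :=
    mul_nonneg (Real.rpow_nonneg h0.le _) (by linarith)
  have h3 : E ^ (-α) * (κ - P E) ≤ E ^ (-α) * C :=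
    mul_le_mul_of_nonneg_left hC (Real.rpow_nonneg hE0.le _)
  nlinarith [h1, h2, h3]

/-- **one value of `c`, constant case** -/
theorem brace2_eq {α e0 E κ : ℝ} {P p1 p0 : ℝ → ℝ} (h0 : 0 < e0) (hE : e0 ≤ E)
    (hP : ∀ e ∈ Icc e0 E, P e = κ) (h1 : ∀ e ∈ Icc e0 E, p1 e = κ)
    (hκ : ∀ e ∈ Icc e0 E, p0 e = κ) :
    -(E ^ (-α) * P E) + e0 ^ (-α) * P e0 +
      ∫ e in e0..E, e ^ (-1 - α) * (-(1 + α) * P e + 2 * p1 e - p0 e) = 0 := by
  have e1 : ∫ e in e0..E, e ^ (-1 - α) * (-(1 + α) * P e + 2 * p1 e - p0 e) =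
      ∫ e in e0..E, κ * (-α * e ^ (-1 - α)) := by
    refine intervalIntegral.integral_congr fun e he => ?_
    rw [uIcc_of_le hE] at he
    show e ^ (-1 - α) * (-(1 + α) * P e + 2 * p1 e - p0 e) = κ * (-α * e ^ (-1 - α))
    rw [hP e he, h1 e he, hκ e he]
    ring
  rw [e1, intervalIntegral.integral_const_mul, integral_w h0 hE, hP E ⟨hE, le_rfl⟩,
    hP e0 ⟨le_rfl, hE⟩]
  ring

end Pool.Agent.A1
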