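import Pool.Agent.Lib_helper59.A1.Stmts
import Pool.Agent.Lib_helper54.A1.Pr2b

set_option autoImplicit false

/-!
Project A1, blocks PR2 and PRE.
-/

open scoped BigOperators ComplexOrder Kronecker MatrixOrder
open MeasureTheory Set Matrix

namespace Pool.Agent.A1W

open Pool.Agent.RC Pool.Agent.A1

variable {ι κ : Type} [Fintype ι] [DecidableEq ι] [Fintype κ] [DecidableEq κ]

/-- bounds for `pc` -/
lemma pc_bound {R₁ D₁ : Matrix ι ι ℂ} {R₂ D₂ : Matrix κ κ ℂ} {c e t K : ℝ}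
    (h : ∫ w in Ioi (0 : ℝ), |uu R₁ D₁ R₂ D₂ c e t w| ≤ K) :
    |pc R₁ D₁ R₂ D₂ c e t| ≤ (2 / Real.pi) * K := by
  unfold pc
  rw [abs_mul, abs_of_nonneg (by positivity)]
  refine mul_le_mul_of_nonneg_left ?_ (by positivity)
  refine le_trans ?_ h
  have := norm_integral_le_integral_norm (μ := volume.restrict (Ioi (0 : ℝ)))
    (uu R₁ D₁ R₂ D₂ c e t)
  simpa only [Real.norm_eq_abs] using this

lemma pa_bound {R₁ D₁ : Matrix ι ι ℂ} {R₂ D₂ : Matrix κ κ ℂ} {c e K : ℝ}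
    (h : ∀ t ∈ Icc (0 : ℝ) 1, |pc R₁ D₁ R₂ D₂ c e t| ≤ K) :
    |pa R₁ D₁ R₂ D₂ c e| ≤ K := by
  unfold pa
  have := intervalIntegral.norm_integral_le_of_norm_le_const (a := (0 : ℝ)) (b := 1)
    (f := pc R₁ D₁ R₂ D₂ c e) (C := K) (fun t ht => by
      rw [uIoc_of_le zero_le_one] at ht
      rw [Real.norm_eq_abs]
      exact h t ⟨ht.1.le, ht.2⟩)
  rwa [Real.norm_eq_abs, sub_zero, abs_one, mul_one] at this

/-- almost every `c` is in the open interval and outside a finite set -/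
lemma ae_good {F : Set ℝ} (hF : F.Finite) :
    ∀ᵐ c ∂(volume.restrict (Ioc (-1 : ℝ) 1)), c ∈ Ioo (-1 : ℝ) 1 ∧ c ∉ F := by
  have h1 : ∀ᵐ c ∂(volume.restrict (Ioc (-1 : ℝ) 1)), c ∈ Ioc (-1 : ℝ) 1 :=
    ae_restrict_mem measurableSet_Ioc
  have h2 : ∀ᵐ c ∂(volume.restrict (Ioc (-1 : ℝ) 1)), c ∉ (F ∪ {1} : Set ℝ) := by
    refine ae_restrict_of_ae ?_
    have : volume (F ∪ {1} : Set ℝ) = 0 := (hF.union (finite_singleton 1)).measure_zero _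
    exact measure_eq_zero_iff_ae_notMem.mp this
  filter_upwards [h1, h2] with c hc1 hc2
  refine ⟨⟨hc1.1, lt_of_le_of_ne hc1.2 fun h => hc2 (Or.inr h)⟩, fun h => hc2 (Or.inl h)⟩

/-- **PR2** -/
theorem pr2_stmt (hFUB : FUBStmt) (hINT : INTStmt) (hSGN : SGNStmt) (hKAP : KAPStmt)
    (hBND : BNDStmt) : PR2Stmt := by
  intro ι κ _ _ _ _ R₁ D₁ R₂ D₂ h₁ h₂
  obtain ⟨K, hK0, hK⟩ := hBND ι κ R₁ D₁ R₂ D₂ h₁ h₂
  obtain ⟨hfin, hkap⟩ := hKAP ι κ R₁ D₁ R₂ D₂ h₁ h₂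
  refine ⟨2 * (2 * ((2 / Real.pi) * K)), fun α e₀ E hα hα2 h0 hE => ?_⟩
  have hE0 : 0 < E := h0.trans_le hE
  obtain ⟨j1, j2, j3, j4, j5, j6⟩ := hINT ι κ R₁ D₁ R₂ D₂ h₁ h₂ α e₀ E h0 hE
  rw [hFUB ι κ R₁ D₁ R₂ D₂ h₁ h₂ α e₀ E h0 hE, add_comm]
  refine add_le_add le_rfl ?_
  have h1 : (∫ c in (-1 : ℝ)..1, (-(E ^ (-α) * pa R₁ D₁ R₂ D₂ c E)
      + e₀ ^ (-α) * pa R₁ D₁ R₂ D₂ c e₀
      + ∫ e in e₀..E, e ^ (-1 - α) * (-(1 + α) * pa R₁ D₁ R₂ D₂ c e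
        + 2 * pc R₁ D₁ R₂ D₂ c e 1 - pc R₁ D₁ R₂ D₂ c e 0))) ≤
      ∫ c in (-1 : ℝ)..1, 2 * ((2 / Real.pi) * K) * E ^ (-α) := by
    refine intervalIntegral.integral_mono_ae_restrict (by norm_num) j6
      intervalIntegrable_const ?_
    rw [← restrict_Ioc_eq_restrict_Icc]
    filter_upwards [ae_good hfin] with c hc
    have hcu : IsUnit (Wc R₂ D₂ c).det := by
      by_contra hn
      exact hc.2 hn
    have hcI : c ∈ Icc (-1 : ℝ) 1 := ⟨hc.1.1.le, hc.1.2.le⟩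
    obtain ⟨k, hk⟩ := hkap c hc.1 hcu
    have hs : ∀ e : ℝ, 0 < e → pa R₁ D₁ R₂ D₂ c e ≤ k ∧
        (α - 1) * (k - pa R₁ D₁ R₂ D₂ c e) ≤
          2 * (pa R₁ D₁ R₂ D₂ c e - pc R₁ D₁ R₂ D₂ c e 1) := by
      intro e he
      have := hSGN ι κ R₁ D₁ R₂ D₂ h₁ h₂ c hc.1 hcu e he α hα hα2
      rwa [hk e he] at this
    have hp : ∀ e : ℝ, 0 ≤ e → ∀ t ∈ Icc (0 : ℝ) 1,
        |pc R₁ D₁ R₂ D₂ c e t| ≤ (2 / Real.pi) * K := fun e he t ht =>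
      pc_bound (((hK c hcI e he).1 t ht).1.2)
    have hb : k - pa R₁ D₁ R₂ D₂ c E ≤ 2 * ((2 / Real.pi) * K) := by
      have a1 := hp E hE0.le 0 ⟨le_rfl, zero_le_one⟩
      have a2 := pa_bound (hp E hE0.le)
      rw [hk E hE0] at a1
      have := abs_le.mp a1
      have := abs_le.mp a2
      linarith
    exact brace2_le h0 hE (j3 c hcI) (j2 c hcI 1 ⟨zero_le_one, le_rfl⟩)
      (fun e he => hk e (h0.trans_le he.1)) (hs e₀ h0).1 hb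
      (fun e he => (hs e (h0.trans_le he.1)).2)
  refine h1.trans (le_of_eq ?_)
  rw [intervalIntegral.integral_const, smul_eq_mul]
  ring

/-- the scalar pair -/
lemma spair_scalar {a : ℝ} (ha : a ∈ Ioo (-1 : ℝ) 1) :
    SPair (1 : Matrix Unit Unit ℂ) ((a : ℂ) • 1) := by
  have h1 : ∀ r : ℝ, 0 < r → ((r : ℂ) • (1 : Matrix Unit Unit ℂ)).PosDef := fun r hr =>
    PosDef.one.smul (by exact_mod_cast hr)
  have e1 : (1 : Matrix Unit Unit ℂ) - (a : ℂ) • 1 = ((1 - a : ℝ) : ℂ) • 1 := by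
    push_cast
    rw [sub_smul, one_smul]
  have e2 : (1 : Matrix Unit Unit ℂ) + (a : ℂ) • 1 = ((1 + a : ℝ) : ℂ) • 1 := by
    push_cast
    rw [add_smul, one_smul]
  exact ⟨by rw [e1]; exact h1 _ (by linarith [ha.2]), by rw [e2]; exact h1 _ (by linarith [ha.1])⟩

/-- **PRE** -/
theorem pre_stmt (hFUB : FUBStmt) (hSCA : SCAStmt) (hKAP : KAPStmt) : PREStmt := by
  intro κ _ _ A₂ D₂ h₂ a ha α e₀ E h0 hE
  have h₁ := spair_scalar ha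
  obtain ⟨hfin, hkap⟩ := hKAP Unit κ _ _ A₂ D₂ h₁ h₂
  rw [hFUB Unit κ _ _ A₂ D₂ h₁ h₂ α e₀ E h0 hE]
  have h1 : (∫ c in (-1 : ℝ)..1, (-(E ^ (-α) * pa (1 : Matrix Unit Unit ℂ) ((a : ℂ) • 1) A₂ D₂ c E)
      + e₀ ^ (-α) * pa (1 : Matrix Unit Unit ℂ) ((a : ℂ) • 1) A₂ D₂ c e₀
      + ∫ e in e₀..E, e ^ (-1 - α) * (-(1 + α) * pa (1 : Matrix Unit Unit ℂ) ((a : ℂ) • 1) A₂ D₂ c e
        + 2 * pc (1 : Matrix Unit Unit ℂ) ((a : ℂ) • 1) A₂ D₂ c e 1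
        - pc (1 : Matrix Unit Unit ℂ) ((a : ℂ) • 1) A₂ D₂ c e 0))) = 0 := by
    rw [intervalIntegral.integral_of_le (by norm_num)]
    refine integral_eq_zero_of_ae ?_
    filter_upwards [ae_good hfin] with c hc
    have hcu : IsUnit (Wc A₂ D₂ c).det := by
      by_contra hn
      exact hc.2 hn
    obtain ⟨k, hk⟩ := hkap c hc.1 hcu
    have hs : ∀ e : ℝ, 0 < e → ∀ t ∈ Icc (0 : ℝ) 1,
        pc (1 : Matrix Unit Unit ℂ) ((a : ℂ) • 1) A₂ D₂ c e t = k := fun e he t ht => by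
      rw [hSCA κ A₂ D₂ h₂ a ha c hc.1 hcu e he t ht, hk e he]
    have hpa : ∀ e : ℝ, 0 < e → pa (1 : Matrix Unit Unit ℂ) ((a : ℂ) • 1) A₂ D₂ c e = k := by
      intro e he
      unfold pa
      have : ∫ t in (0 : ℝ)..1, pc (1 : Matrix Unit Unit ℂ) ((a : ℂ) • 1) A₂ D₂ c e t =
          ∫ t in (0 : ℝ)..1, k := by
        refine intervalIntegral.integral_congr fun t ht => ?_
        rw [uIcc_of_le zero_le_one] at ht
        exact hs e he t ht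
      rw [this, intervalIntegral.integral_const, sub_zero, one_smul]
    exact brace2_eq h0 hE (fun e he => hpa e (h0.trans_le he.1))
      (fun e he => hs e (h0.trans_le he.1) 1 ⟨zero_le_one, le_rfl⟩)
      (fun e he => hk e (h0.trans_le he.1))
  rw [h1, zero_add]

end Pool.Agent.A1W
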