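import Mathlib

set_option autoImplicit false

/-!
Project A1, block MIN: `Tr H X` is minimal at `X = S_J(H)` among the positive solutions of
`X J X = J⁻¹`.
-/

namespace Pool.Agent.A1

open Matrix
open scoped ComplexOrder

variable {n : Type*} [Fintype n] [DecidableEq n]

/-- the key inequality: a positive solution `Y` of `Y b Y = b⁻¹` has `Y_kk ≥ 1/|b_k|` -/
lemma diag_ge {Y : Matrix n n ℂ} (hY : Y.PosSemidef) {b : n → ℝ} (hb : ∀ i, b i ≠ 0)
    (h : Y * diagonal (fun i => (b i : ℂ)) * Y = diagonal (fun i => ((b i : ℂ))⁻¹)) (k : n) :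
    |b k|⁻¹ ≤ (Y k k).re := by
  set D : Matrix n n ℂ := diagonal (fun i => (b i : ℂ)) with hD
  -- `c = sign (b k)`
  obtain ⟨c, hc1, hc2⟩ : ∃ c : ℝ, c * c = 1 ∧ c * (b k)⁻¹ = |b k|⁻¹ := by
    rcases lt_or_gt_of_ne (hb k) with hk | hk
    · exact ⟨-1, by norm_num, by rw [abs_of_neg hk, inv_neg]; ring⟩
    · exact ⟨1, by norm_num, by rw [abs_of_pos hk]; ring⟩
  have hYh : Yᴴ = Y := hY.1
  have hDh : Dᴴ = D := by
    rw [hD, diagonal_conjTranspose]
    congr 1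
    funext i
    simp
  -- the matrix `(1 - c D Y)ᴴ Y (1 - c D Y)`
  have hp : ((1 - (c : ℂ) • (D * Y))ᴴ * Y * (1 - (c : ℂ) • (D * Y))).PosSemidef :=
    hY.conjTranspose_mul_mul_same _
  have e : (1 - (c : ℂ) • (D * Y))ᴴ * Y * (1 - (c : ℂ) • (D * Y)) =
      (2 : ℂ) • Y - (2 * c : ℂ) • diagonal (fun i => ((b i : ℂ))⁻¹) := by
    have e1 : (1 - (c : ℂ) • (D * Y))ᴴ = 1 - (c : ℂ) • (Y * D) := by
      rw [conjTranspose_sub, conjTranspose_smul, conjTranspose_mul, hYh, hDh,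
        conjTranspose_one]
      simp
    have e2 : diagonal (fun i => ((b i : ℂ))⁻¹) * (D * Y) = Y := by
      rw [← mul_assoc, hD, diagonal_mul_diagonal]
      have : (fun i => ((b i : ℂ))⁻¹ * (b i : ℂ)) = fun _ => (1 : ℂ) := by
        funext i
        exact inv_mul_cancel₀ (by exact_mod_cast hb i)
      rw [this, diagonal_one, one_mul]
    have e3 : Y * (D * Y) = diagonal (fun i => ((b i : ℂ))⁻¹) := by
      rw [← mul_assoc, h]
    have hcc : (c : ℂ) * c = 1 := by exact_mod_cast hc1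
    rw [e1, sub_mul, one_mul, mul_sub, mul_one, smul_mul_assoc, sub_mul, mul_smul_comm,
      smul_mul_assoc, h, mul_smul_comm, e3, e2, smul_smul, hcc, one_smul]
    module
  have hk := hp.diag_nonneg (i := k)
  rw [e] at hk
  have hk' : 0 ≤ (((2 : ℂ) • Y - (2 * c : ℂ) • diagonal (fun i => ((b i : ℂ))⁻¹)) k k).re :=
    (Complex.nonneg_iff.mp hk).1
  rw [Matrix.sub_apply, Matrix.smul_apply, Matrix.smul_apply, diagonal_apply_eq] at hk'
  have e4 : ((2 : ℂ) • Y k k - (2 * c : ℂ) • ((b k : ℂ))⁻¹).re =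
      2 * (Y k k).re - 2 * (c * (b k)⁻¹) := by
    have : (2 * c : ℂ) • ((b k : ℂ))⁻¹ = ((2 * (c * (b k)⁻¹) : ℝ) : ℂ) := by
      push_cast
      rw [smul_eq_mul]
      ring
    rw [this, Complex.sub_re, Complex.ofReal_re, smul_eq_mul]
    simp
  rw [e4, hc2] at hk'
  linarith

/-- MIN, frame form -/
theorem min_frame {H J X T : Matrix n n ℂ} {l : n → ℝ} (hl : ∀ i, l i ≠ 0)
    (hX : X.PosSemidef) (hXJ : X * J * X * J = 1) (hT : Tᴴ * H * T = 1)
    (hTJ : Tᴴ * J * T = diagonal (fun i => (l i : ℂ))) :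
    ∑ i, |l i|⁻¹ ≤ ((H * X).trace).re := by
  -- `T` is invertible
  have hTu : IsUnit T := by
    have : IsUnit (Tᴴ * H * T) := by rw [hT]; exact isUnit_one
    exact (Matrix.isUnit_iff_isUnit_det _).mpr (by
      have h1 := (Matrix.isUnit_iff_isUnit_det _).mp this
      rw [det_mul] at h1
      exact isUnit_of_mul_isUnit_right h1)
  have hTd : IsUnit T.det := (Matrix.isUnit_iff_isUnit_det _).mp hTu
  have i1 : T * T⁻¹ = 1 := mul_nonsing_inv T hTd
  have i2 : T⁻¹ * T = 1 := nonsing_inv_mul T hTd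
  have i3 : (T⁻¹)ᴴ * Tᴴ = 1 := by rw [← conjTranspose_mul, i1, conjTranspose_one]
  have i4 : Tᴴ * (T⁻¹)ᴴ = 1 := by rw [← conjTranspose_mul, i2, conjTranspose_one]
  set Y : Matrix n n ℂ := T⁻¹ * X * (T⁻¹)ᴴ with hY
  have hYp : Y.PosSemidef := hX.mul_mul_conjTranspose_same _
  have eJ : J = (T⁻¹)ᴴ * diagonal (fun i => (l i : ℂ)) * T⁻¹ := by
    rw [← hTJ]
    calc J = ((T⁻¹)ᴴ * Tᴴ) * J * (T * T⁻¹) := by rw [i1, i3, one_mul, mul_one]
      _ = _ := by simp only [mul_assoc]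
  have eH : H = (T⁻¹)ᴴ * T⁻¹ := by
    calc H = ((T⁻¹)ᴴ * Tᴴ) * H * (T * T⁻¹) := by rw [i1, i3, one_mul, mul_one]
      _ = (T⁻¹)ᴴ * (Tᴴ * H * T) * T⁻¹ := by simp only [mul_assoc]
      _ = _ := by rw [hT, mul_one]
  set D : Matrix n n ℂ := diagonal (fun i => (l i : ℂ)) with hD
  set D' : Matrix n n ℂ := diagonal (fun i => ((l i : ℂ))⁻¹) with hD'
  have hDD : D * D' = 1 := by
    rw [hD, hD', diagonal_mul_diagonal]
    have : (fun i => (l i : ℂ) * ((l i : ℂ))⁻¹) = fun _ => (1 : ℂ) := by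
      funext i
      exact mul_inv_cancel₀ (by exact_mod_cast hl i)
    rw [this, diagonal_one]
  have key : Y * D * Y * D = 1 := by
    have : Y * D * Y * D = T⁻¹ * (X * J * X * J) * T := by
      rw [eJ, hY]
      calc T⁻¹ * X * T⁻¹ᴴ * D * (T⁻¹ * X * T⁻¹ᴴ) * D
          = T⁻¹ * X * T⁻¹ᴴ * D * (T⁻¹ * X * T⁻¹ᴴ) * D * (T⁻¹ * T) := by rw [i2, mul_one]
        _ = _ := by simp only [mul_assoc]
    rw [this, hXJ, mul_one, i2]
  have hYD : Y * D * Y = D' := by
    calc Y * D * Y = Y * D * Y * (D * D') := by rw [hDD, mul_one]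
      _ = (Y * D * Y * D) * D' := by simp only [mul_assoc]
      _ = D' := by rw [key, one_mul]
  have htr : (H * X).trace = Y.trace := by
    rw [eH, hY, mul_assoc, trace_mul_comm]
  rw [htr, trace, Complex.re_sum]
  exact Finset.sum_le_sum fun i _ => diag_ge hYp hl hYD i

end Pool.Agent.A1
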