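import Mathlib

set_option autoImplicit false

/-!
Project A1, block PR2: from the identity with the weight `ε^(-1-α)` to the inequality
`∫ ε^(-1-α) GG ≤ ∫∫ ε^(-α) q + C E^(-α)`.
-/

namespace Pool.Agent.A1

open MeasureTheory Set

/-- the integral of the weight -/
lemma integral_weight {α e0 E : ℝ} (hα : 0 < α) (h0 : 0 < e0) (hE : e0 ≤ E) :
    ∫ e in e0..E, α * e ^ (-1 - α) = e0 ^ (-α) - E ^ (-α) := by
  rw [intervalIntegral.integral_const_mul, integral_rpow]
  · have e1 : -1 - α + 1 = -α := by ring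
    rw [e1]
    field_simp
    ring
  · right
    refine ⟨by linarith, ?_⟩
    rw [uIcc_of_le hE]
    intro h
    exact absurd h.1 (not_le.mpr h0)

lemma weight_mul {α e : ℝ} (he : 0 < e) : e ^ (-1 - α) * e = e ^ (-α) := by
  nth_rewrite 2 [← Real.rpow_one e]
  rw [← Real.rpow_add he]
  congr 1
  ring

lemma weight_mul' {α e : ℝ} (he : 0 < e) : e ^ (-1 - α - 1) * e = e ^ (-1 - α) := by
  nth_rewrite 2 [← Real.rpow_one e]
  rw [← Real.rpow_add he]
  congr 1
  ring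

lemma continuousOn_weight {a e0 E : ℝ} (h0 : 0 < e0) :
    ContinuousOn (fun e : ℝ => e ^ a) (Icc e0 E) := by
  intro e he
  exact (Real.continuousAt_rpow_const e a (Or.inl (h0.trans_le he.1).ne')).continuousWithinAt

lemma intervalIntegrable_weight_mul {a e0 E : ℝ} (h0 : 0 < e0) (hE : e0 ≤ E) {f : ℝ → ℝ}
    (hf : IntervalIntegrable f volume e0 E) :
    IntervalIntegrable (fun e => e ^ a * f e) volume e0 E :=
  hf.continuousOn_mul (by rw [uIcc_of_le hE]; exact continuousOn_weight h0)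

/-- the integrand, rewritten -/
lemma brace_integrand {α e P p1 κ : ℝ} (he : 0 < e) :
    (-1 - α) * e ^ (-1 - α - 1) * e * P + e ^ (-1 - α) * (2 * p1 - κ) =
      -(κ * (α * e ^ (-1 - α))) + e ^ (-1 - α) * ((α - 1) * (κ - P) - 2 * (P - p1)) := by
  rw [mul_assoc (-1 - α), weight_mul' he]
  ring

lemma brace_integral {α e0 E κ : ℝ} {P p1 : ℝ → ℝ} (hα : 0 < α) (h0 : 0 < e0)
    (hE : e0 ≤ E) (iP : IntervalIntegrable P volume e0 E)
    (i1 : IntervalIntegrable p1 volume e0 E) :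
    ∫ e in e0..E, ((-1 - α) * e ^ (-1 - α - 1) * e * P e + e ^ (-1 - α) * (2 * p1 e - κ)) =
      κ * (E ^ (-α) - e0 ^ (-α)) +
        ∫ e in e0..E, e ^ (-1 - α) * ((α - 1) * (κ - P e) - 2 * (P e - p1 e)) := by
  have e1 : ∫ e in e0..E, ((-1 - α) * e ^ (-1 - α - 1) * e * P e +
      e ^ (-1 - α) * (2 * p1 e - κ)) = ∫ e in e0..E, (-(κ * (α * e ^ (-1 - α))) +
        e ^ (-1 - α) * ((α - 1) * (κ - P e) - 2 * (P e - p1 e))) := by
    refine intervalIntegral.integral_congr fun e he => ?_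
    rw [uIcc_of_le hE] at he
    exact brace_integrand (h0.trans_le he.1)
  have iB : IntervalIntegrable (fun e => (α - 1) * (κ - P e) - 2 * (P e - p1 e)) volume e0 E :=
    ((intervalIntegrable_const.sub iP).const_mul _).sub ((iP.sub i1).const_mul _)
  have iw : IntervalIntegrable (fun e : ℝ => e ^ (-1 - α)) volume e0 E :=
    (continuousOn_weight h0).intervalIntegrable_of_Icc hE
  have i2 : IntervalIntegrable (fun e : ℝ => -(κ * (α * e ^ (-1 - α)))) volume e0 E :=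
    ((iw.const_mul α).const_mul κ).neg
  rw [e1, intervalIntegral.integral_add i2 (intervalIntegrable_weight_mul h0 hE iB),
    intervalIntegral.integral_neg, intervalIntegral.integral_const_mul,
    integral_weight hα h0 hE]
  ring

/-- **one value of `c`** -/
theorem brace_le {α e0 E κ C : ℝ} {P p1 : ℝ → ℝ} (hα : 0 < α) (h0 : 0 < e0) (hE : e0 ≤ E)
    (iP : IntervalIntegrable P volume e0 E) (i1 : IntervalIntegrable p1 volume e0 E)
    (hP : P e0 ≤ κ) (hC : κ - P E ≤ C)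
    (h : ∀ e ∈ Icc e0 E, (α - 1) * (κ - P e) ≤ 2 * (P e - p1 e)) :
    -(E ^ (-1 - α) * E * P E - e0 ^ (-1 - α) * e0 * P e0) +
      ∫ e in e0..E, ((-1 - α) * e ^ (-1 - α - 1) * e * P e +
        e ^ (-1 - α) * (2 * p1 e - κ)) ≤ C * E ^ (-α) := by
  have hE0 : 0 < E := h0.trans_le hE
  have iB : IntervalIntegrable (fun e => (α - 1) * (κ - P e) - 2 * (P e - p1 e)) volume e0 E :=
    ((intervalIntegrable_const.sub iP).const_mul _).sub ((iP.sub i1).const_mul _)
  rw [brace_integral hα h0 hE iP i1, weight_mul hE0, weight_mul h0]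
  have h1 : ∫ e in e0..E, e ^ (-1 - α) * ((α - 1) * (κ - P e) - 2 * (P e - p1 e)) ≤
      ∫ e in e0..E, (0 : ℝ) := by
    refine intervalIntegral.integral_mono_on hE (intervalIntegrable_weight_mul h0 hE iB)
      intervalIntegrable_const fun e he => ?_
    exact mul_nonpos_of_nonneg_of_nonpos (Real.rpow_nonneg (h0.le.trans he.1) _)
      (by linarith [h e he])
  rw [intervalIntegral.integral_zero] at h1
  have h2 : 0 ≤ e0 ^ (-α) * (κ - P e0) :=
    mul_nonneg (Real.rpow_nonneg h0.le _) (by linarith)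
  have h3 : E ^ (-α) * (κ - P E) ≤ E ^ (-α) * C :=
    mul_le_mul_of_nonneg_left hC (Real.rpow_nonneg hE0.le _)
  nlinarith [h1, h2, h3]

/-- **one value of `c`, constant case** -/
theorem brace_eq {α e0 E κ : ℝ} {P p1 : ℝ → ℝ} (hα : 0 < α) (h0 : 0 < e0) (hE : e0 ≤ E)
    (hP : ∀ e ∈ Icc e0 E, P e = κ) (h1 : ∀ e ∈ Icc e0 E, p1 e = κ) :
    -(E ^ (-1 - α) * E * P E - e0 ^ (-1 - α) * e0 * P e0) +
      ∫ e in e0..E, ((-1 - α) * e ^ (-1 - α - 1) * e * P e +
        e ^ (-1 - α) * (2 * p1 e - κ)) = 0 := by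
  have hE0 : 0 < E := h0.trans_le hE
  have e1 : ∫ e in e0..E, ((-1 - α) * e ^ (-1 - α - 1) * e * P e +
      e ^ (-1 - α) * (2 * p1 e - κ)) = ∫ e in e0..E, -(κ * (α * e ^ (-1 - α))) := by
    refine intervalIntegral.integral_congr fun e he => ?_
    rw [uIcc_of_le hE] at he
    show (-1 - α) * e ^ (-1 - α - 1) * e * P e + e ^ (-1 - α) * (2 * p1 e - κ) = _
    rw [brace_integrand (h0.trans_le he.1), hP e he, h1 e he]
    ring
  rw [e1, intervalIntegral.integral_neg, intervalIntegral.integral_const_mul,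
    integral_weight hα h0 hE, weight_mul hE0, weight_mul h0, hP E ⟨hE, le_rfl⟩,
    hP e0 ⟨le_rfl, hE⟩]
  ring

/-- **PR2, inequality.** -/
theorem pr2_le {α e0 E C L : ℝ} {P p1 q : ℝ → ℝ → ℝ} {κ : ℝ → ℝ} (hα : 0 < α) (h0 : 0 < e0)
    (hE : e0 ≤ E)
    (hid : L = ∫ c in (-1 : ℝ)..1,
      (-(E ^ (-1 - α) * E * P c E - e0 ^ (-1 - α) * e0 * P c e0) +
        (∫ e in e0..E, ((-1 - α) * e ^ (-1 - α - 1) * e * P c e +
          e ^ (-1 - α) * (2 * p1 c e - κ c))) +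
        ∫ e in e0..E, e ^ (-1 - α) * e * q c e))
    (iP : ∀ᵐ c ∂(volume.restrict (Ioc (-1 : ℝ) 1)), IntervalIntegrable (P c) volume e0 E)
    (i1 : ∀ᵐ c ∂(volume.restrict (Ioc (-1 : ℝ) 1)), IntervalIntegrable (p1 c) volume e0 E)
    (iq : IntervalIntegrable (fun c => ∫ e in e0..E, e ^ (-α) * q c e) volume (-1) 1)
    (ib : IntervalIntegrable (fun c =>
      -(E ^ (-1 - α) * E * P c E - e0 ^ (-1 - α) * e0 * P c e0) +
        (∫ e in e0..E, ((-1 - α) * e ^ (-1 - α - 1) * e * P c e +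
          e ^ (-1 - α) * (2 * p1 c e - κ c)))) volume (-1) 1)
    (hP : ∀ᵐ c ∂(volume.restrict (Ioc (-1 : ℝ) 1)), P c e0 ≤ κ c ∧ κ c - P c E ≤ C ∧
      ∀ e ∈ Icc e0 E, (α - 1) * (κ c - P c e) ≤ 2 * (P c e - p1 c e)) :
    L ≤ (∫ c in (-1 : ℝ)..1, ∫ e in e0..E, e ^ (-α) * q c e) + 2 * C * E ^ (-α) := by
  have eq : ∀ c, ∫ e in e0..E, e ^ (-1 - α) * e * q c e = ∫ e in e0..E, e ^ (-α) * q c e := by
    intro c
    refine intervalIntegral.integral_congr fun e he => ?_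
    rw [uIcc_of_le hE] at he
    show e ^ (-1 - α) * e * q c e = e ^ (-α) * q c e
    rw [weight_mul (h0.trans_le he.1)]
  simp only [eq] at hid
  rw [hid, intervalIntegral.integral_add ib iq, add_comm]
  have h1 : ∫ c in (-1 : ℝ)..1, (-(E ^ (-1 - α) * E * P c E - e0 ^ (-1 - α) * e0 * P c e0) +
      (∫ e in e0..E, ((-1 - α) * e ^ (-1 - α - 1) * e * P c e +
        e ^ (-1 - α) * (2 * p1 c e - κ c)))) ≤ ∫ c in (-1 : ℝ)..1, C * E ^ (-α) := by
    refine intervalIntegral.integral_mono_ae_restrict (by norm_num) ib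
      intervalIntegrable_const ?_
    rw [← restrict_Ioc_eq_restrict_Icc]
    filter_upwards [iP, i1, hP] with c j1 j2 j3
    exact brace_le hα h0 hE j1 j2 j3.1 j3.2.1 j3.2.2
  rw [intervalIntegral.integral_const] at h1
  have e2 : (1 - (-1 : ℝ)) • (C * E ^ (-α)) = 2 * C * E ^ (-α) := by
    rw [smul_eq_mul]; ring
  rw [e2] at h1
  linarith

/-- **PR2, equality.** -/
theorem pr2_eq {α e0 E L : ℝ} {P p1 q : ℝ → ℝ → ℝ} {κ : ℝ → ℝ} (hα : 0 < α) (h0 : 0 < e0)
    (hE : e0 ≤ E)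
    (hid : L = ∫ c in (-1 : ℝ)..1,
      (-(E ^ (-1 - α) * E * P c E - e0 ^ (-1 - α) * e0 * P c e0) +
        (∫ e in e0..E, ((-1 - α) * e ^ (-1 - α - 1) * e * P c e +
          e ^ (-1 - α) * (2 * p1 c e - κ c))) +
        ∫ e in e0..E, e ^ (-1 - α) * e * q c e))
    (hP : ∀ᵐ c ∂(volume.restrict (Ioc (-1 : ℝ) 1)),
      ∀ e ∈ Icc e0 E, P c e = κ c ∧ p1 c e = κ c) :
    L = ∫ c in (-1 : ℝ)..1, ∫ e in e0..E, e ^ (-α) * q c e := by
  rw [hid]
  rw [intervalIntegral.integral_of_le (by norm_num), intervalIntegral.integral_of_le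
    (by norm_num)]
  refine integral_congr_ae ?_
  filter_upwards [hP] with c hc
  rw [brace_eq hα h0 hE (fun e he => (hc e he).1) (fun e he => (hc e he).2), zero_add]
  refine intervalIntegral.integral_congr fun e he => ?_
  rw [uIcc_of_le hE] at he
  show e ^ (-1 - α) * e * q c e = e ^ (-α) * q c e
  rw [weight_mul (h0.trans_le he.1)]

end Pool.Agent.A1
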